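import Pool.Agent.H257R3.NeckLow2

set_option autoImplicit false

namespace Pool.Agent.Results.MP_9837da_co.GOneTwo

open Pool.Agent.H257R3.Neck

/-- `g(1,2) = 3`: three is the least number of colours for a colouring of `ℤ^2` in which no square
has a fair splitting with at most one axes-aligned cut. -/
theorem result : g 1 2 = 3 := main

end Pool.Agent.Results.MP_9837da_co.GOneTwo
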